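import Pool.Agent.helper25.PL.SpecA

/-! # Project pl: AJA, a time at which the orbit is very near to a critical point is an entry and in no block -/

set_option autoImplicit false

open Complex Metric Set Filter Topology MeasureTheory
open Pool.Agent.helper98.ILF
open WP (it)
open HY (UD T S hd UN RM)
open PM

noncomputable section

namespace PL

theorem AJA_mem {W : Set ℂ} {a b : ℂ} (h : pd W a b < 1) : a ∈ W ∧ b ∈ W := by
  by_contra hn
  unfold pd at h
  rw [if_neg hn] at h
  exact lt_irrefl _ h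

/-- a point with a critical image at the time `j < v` is critical for `f^v`. -/
theorem AJA_crit (f : Polynomial ℂ) (q : ℂ) (j v : ℕ) (hj : j < v) (h : it f j q ∈ CP f) : deriv (it f v) q = 0 := by
  have h0 : f.derivative.eval (it f j q) = 0 := by
    unfold CP at h
    rw [Multiset.mem_toFinset] at h
    exact Polynomial.isRoot_of_mem_roots h
  obtain ⟨i, rfl⟩ : ∃ i, v = i + 1 + j := ⟨v - j - 1, by omega⟩
  have hd : ∀ n : ℕ, Differentiable ℂ (it f n) := by
    intro n
    have h1 : it f n = (fun z : ℂ => f.eval z)^[n] := rfl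
    rw [h1]
    exact f.differentiable.iterate n
  have h1 : it f (i + 1 + j) = fun z => it f i (f.eval (it f j z)) := by
    funext z
    simp only [it, Function.iterate_add_apply, Function.iterate_succ_apply]
  have h2 : HasDerivAt (fun z => it f i (f.eval (it f j z)))
      (deriv (it f i) (f.eval (it f j q)) * (f.derivative.eval (it f j q) * deriv (it f j) q)) q := by
    have h3 : HasDerivAt (it f j) (deriv (it f j) q) q := (hd j q).hasDerivAt
    have h4 : HasDerivAt (fun w : ℂ => f.eval w) (f.derivative.eval (it f j q)) (it f j q) := f.hasDerivAt _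
    have h5 : HasDerivAt (fun z => f.eval (it f j z)) (f.derivative.eval (it f j q) * deriv (it f j) q) q := h4.comp q h3
    have h6 : HasDerivAt (it f i) (deriv (it f i) (f.eval (it f j q))) (f.eval (it f j q)) := (hd i _).hasDerivAt
    exact h6.comp q h5
  rw [h1, h2.deriv, h0]
  ring

/-- one level deeper. -/
theorem AJA_step (hTDF : TDF_stmt) (hVCF : VCF_stmt) {f : Polynomial ℂ} {R δ e₀ d₀ : ℝ} {k₀ : ℕ} (hST : ST f R δ e₀ d₀ k₀)
    {K κ δL cL b₀ δ₁ δ₂ : ℝ} (hP : PRM f R K κ δL cL b₀ δ₁ δ₂) {p q : ℂ} (hp : p ∈ JJ f) (n : ℕ) {η δ' : ℝ} (hη : η ≤ 1 / 2)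
    (h : pd (VC f R n p) p q < η) (hδ : K ^ 2 * η ≤ κ * δ') : pd (VC f R (n + 1) p) p q < δ' := by
  have hER : ER f R := ⟨hST.R1, hST.esc⟩
  obtain ⟨hDD, hpW, -, -⟩ := hVCF f R hST.deg hER n p (hST.Jv p hp n)
  obtain ⟨hDD', hpW', -, -⟩ := hVCF f R hST.deg hER (n + 1) p (hST.Jv p hp (n + 1))
  have hcr := ((hTDF _ hDD).2.2 p hpW).2.1
  have hcr' := ((hTDF _ hDD').2.2 p hpW').2.1
  obtain ⟨hK1, hE⟩ := hP.eu
  have h1 := (hE _ hDD p hpW).2 q (by linarith)
  have h2 := (hE _ hDD' p hpW').1 q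
  have h3 := hP.vcr n p hp
  have hK0 : 0 < K := by linarith
  by_contra hn
  push Not at hn
  have h4 : K * ‖q - p‖ < K ^ 2 * η * cr (VC f R n p) p := by
    have h5 : pd (VC f R n p) p q * cr (VC f R n p) p < η * cr (VC f R n p) p := mul_lt_mul_of_pos_right h hcr
    have h6 : K * (pd (VC f R n p) p q * cr (VC f R n p) p) < K * (η * cr (VC f R n p) p) := mul_lt_mul_of_pos_left h5 hK0
    have h7 : K * ‖q - p‖ < K * (K * (η * cr (VC f R n p) p)) := mul_lt_mul_of_pos_left (lt_of_le_of_lt h1 h6) hK0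
    calc K * ‖q - p‖ < K * (K * (η * cr (VC f R n p) p)) := h7
      _ = K ^ 2 * η * cr (VC f R n p) p := by ring
  have h8 : K ^ 2 * η * cr (VC f R n p) p ≤ κ * δ' * cr (VC f R n p) p := mul_le_mul_of_nonneg_right hδ hcr.le
  have h9 : 0 < K ^ 2 * η * cr (VC f R n p) p := lt_of_le_of_lt (by positivity) h4
  have hδ0 : 0 < δ' := by
    have h10 : 0 < κ * δ' * cr (VC f R n p) p := lt_of_lt_of_le h9 h8
    have h11 : 0 < κ * δ' := by
      by_contra h12
      push Not at h12
      have := mul_nonpos_of_nonpos_of_nonneg h12 hcr.le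
      linarith
    by_contra h12
    push Not at h12
    have := mul_nonpos_of_nonneg_of_nonpos hP.κ0.le h12
    linarith
  have h10 : κ * δ' * cr (VC f R n p) p ≤ δ' * cr (VC f R (n + 1) p) p := by
    calc κ * δ' * cr (VC f R n p) p = δ' * (κ * cr (VC f R n p) p) := by ring
      _ ≤ δ' * cr (VC f R (n + 1) p) p := mul_le_mul_of_nonneg_left h3 hδ0.le
  have h11 : δ' * cr (VC f R (n + 1) p) p ≤ pd (VC f R (n + 1) p) p q * cr (VC f R (n + 1) p) p :=
    mul_le_mul_of_nonneg_right hn hcr'.le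
  linarith

theorem AJA (hTDF : TDF_stmt) (hVCF : VCF_stmt) : AJA_stmt := by
  intro f R δ e₀ d₀ k₀ hST K κ δL cL b₀ δ₁ δ₂ hP η ε hη0 hη hKη hε k t p hSQ hLQ T hT c hc hpd
  have hp := hSQ.mem
  obtain ⟨-, hcW⟩ := AJA_mem (lt_of_lt_of_le hpd hε)
  obtain ⟨q, hq1, hq2, hq3⟩ := hLQ T hT.le c hcW hpd
  have hK1 := hP.eu.1
  have hK2 : 1 ≤ K ^ 2 := one_le_pow₀ hK1
  have hδ21 : δ₂ ≤ δ₁ := by
    have := hP.d2
    have := hP.d0
    nlinarith
  have hδ10 : 0 < δ₁ := lt_of_lt_of_le hP.d0 hδ21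
  have hδ1L : δ₁ ≤ δL := by
    have h1 := hP.d1
    have h2 := hP.κ1
    have h3 := hP.L0
    nlinarith
  have hq4 : pd (VC f R (k + (T + 1)) p) p q < δ₂ := by
    have := AJA_step hTDF hVCF hST hP hp (k + T) hη hq2 hKη
    simpa [add_assoc] using this
  have hqc : it f T q ∈ CP f := by rw [hq3]; exact hc
  constructor
  · rintro j ⟨hjT, -, q', hq'1, -, hq'3⟩
    have hL1 := hP.L1
    have h1 : pd (VC f R (k + (T + 1)) p) p q' < δL := by
      have := AJA_step hTDF hVCF hST hP hp (k + T) (η := δ₁) (by linarith) hq'3 hP.d1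
      simpa [add_assoc] using this
    have h2 : pd (VC f R (k + (T + 1)) p) p q < δL := by linarith
    have hm1 := (AJA_mem (lt_trans h1 (by linarith))).2
    have hm2 := (AJA_mem (lt_trans h2 (by linarith))).2
    have h3 : q' = q := hSQ.sa (T + 1) hT q' hm1 q hm2 (AJA_crit f q' j (T + 1) (by omega) hq'1)
      (AJA_crit f q T (T + 1) (by omega) hqc) h1 h2
    rw [h3] at hq'1
    have h4 := hSQ.sb (T + 1) hT q hm2 h2 j (by omega) T (by omega) hq'1 hqc
    omega
  · exact ⟨by omega, hT, q, hqc, hq4, by linarith⟩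

end PL
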