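import Pool.Agent.helper94.PL.Spec

set_option autoImplicit false

open Complex Metric Set Filter Topology MeasureTheory MPS
open Pool.Agent.helper16.Multibrot

noncomputable section

namespace PLY

theorem AL4_det (d : ℂ) :
    ((ContinuousLinearMap.toSpanSingleton ℂ d).restrictScalars ℝ : ℂ →L[ℝ] ℂ).det = ‖d‖ ^ 2 := by
  rw [ContinuousLinearMap.det]
  have h := LinearMap.det_restrictScalars (A := ℂ) (R := ℝ) (S := ℂ)
    (f := (ContinuousLinearMap.toSpanSingleton ℂ d : ℂ →ₗ[ℂ] ℂ))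
  have h2 : ((((ContinuousLinearMap.toSpanSingleton ℂ d).restrictScalars ℝ : ℂ →L[ℝ] ℂ)) :
      ℂ →ₗ[ℝ] ℂ) = (ContinuousLinearMap.toSpanSingleton ℂ d : ℂ →ₗ[ℂ] ℂ).restrictScalars ℝ := rfl
  rw [h2, h]
  simp [Algebra.norm_complex_apply, Complex.normSq_eq_norm_sq]

/-- The density `1 / ‖x‖ ^ 2` is invariant under multiplication by a nonzero constant. -/
theorem AL4_scale (a : ℂ) (ha : a ≠ 0) (S : Set ℂ) (hS : MeasurableSet S) :
    ∫⁻ x in (fun x => a * x) '' S, ENNReal.ofReal (1 / ‖x‖ ^ 2) =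
      ∫⁻ x in S, ENNReal.ofReal (1 / ‖x‖ ^ 2) := by
  have h1 : ∀ y ∈ S, HasFDerivWithinAt (fun x : ℂ => a * x)
      ((ContinuousLinearMap.toSpanSingleton ℂ a).restrictScalars ℝ : ℂ →L[ℝ] ℂ) S y := by
    intro y _
    have h := ((hasDerivAt_id y).const_mul a)
    rw [mul_one] at h
    exact (h.hasFDerivAt.restrictScalars ℝ).hasFDerivWithinAt
  have hinj : InjOn (fun x : ℂ => a * x) S := fun x _ y _ h => mul_left_cancel₀ ha h
  rw [lintegral_image_eq_lintegral_abs_det_fderiv_mul volume hS h1 hinj]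
  apply lintegral_congr
  intro x
  rw [AL4_det, abs_of_nonneg (by positivity), ← ENNReal.ofReal_mul (by positivity)]
  congr 1
  have ha' : ‖a‖ ≠ 0 := norm_ne_zero_iff.mpr ha
  rw [norm_mul, mul_pow]
  by_cases hx : ‖x‖ = 0
  · rw [hx]; simp
  · field_simp

/-- Project pl2, module AL4: a set that is disjoint from its multiples. -/
theorem AL4 (h3 : AL3_stmt) : AL4_stmt := by
  intro S μ hS hμ h0 hdis
  have hμ0 : μ ≠ 0 := by
    intro h
    rw [h, norm_zero] at hμ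
    linarith
  set w : ℂ → ENNReal := fun x => ENNReal.ofReal (1 / ‖x‖ ^ 2) with hw
  set A : Set ℂ := {x : ℂ | 1 ≤ ‖x‖ ∧ ‖x‖ < ‖μ‖} with hA
  have hAm : MeasurableSet A := by
    rw [hA]
    exact (measurableSet_le measurable_const measurable_norm).inter
      (measurableSet_lt measurable_norm measurable_const)
  -- the pieces
  let P : ℤ → Set ℂ := fun j => S ∩ (fun x => μ ^ j * x) ⁻¹' A
  have hPm : ∀ j, MeasurableSet (P j) := fun j =>
    hS.inter ((measurable_const_mul (μ ^ j)) hAm)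
  have hcov : S ⊆ ⋃ j, P j := by
    intro x hx
    have hx0 : 0 < ‖x‖ := by
      rw [norm_pos_iff]
      rintro rfl
      exact h0 hx
    obtain ⟨n, hn1, hn2⟩ := exists_mem_Ico_zpow hx0 hμ
    refine mem_iUnion.mpr ⟨-n, hx, ?_⟩
    have hp : 0 < ‖μ‖ ^ n := zpow_pos (by linarith) n
    have hnorm : ‖μ ^ (-n) * x‖ = ‖x‖ / ‖μ‖ ^ n := by
      rw [norm_mul, norm_zpow, zpow_neg, div_eq_inv_mul]
    rw [mem_preimage, hA, mem_setOf_eq, hnorm]
    constructor
    · rw [le_div_iff₀ hp, one_mul]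
      exact hn1
    · rw [div_lt_iff₀ hp, mul_comm, ← zpow_add_one₀ (by linarith)]
      exact hn2
  let Q : ℤ → Set ℂ := fun j => (fun x => μ ^ j * x) '' P j
  have hQeq : ∀ j, Q j = A ∩ (fun y => (μ ^ j)⁻¹ * y) ⁻¹' S := by
    intro j
    have hj : μ ^ j ≠ 0 := zpow_ne_zero j hμ0
    ext y
    constructor
    · rintro ⟨x, ⟨hx1, hx2⟩, rfl⟩
      refine ⟨hx2, ?_⟩
      rw [mem_preimage]
      simpa [inv_mul_cancel_left₀ hj] using hx1
    · rintro ⟨hy1, hy2⟩
      refine ⟨(μ ^ j)⁻¹ * y, ⟨hy2, ?_⟩, ?_⟩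
      · rw [mem_preimage]
        simpa [mul_inv_cancel_left₀ hj] using hy1
      · simp [mul_inv_cancel_left₀ hj]
  have hQm : ∀ j, MeasurableSet (Q j) := by
    intro j
    rw [hQeq]
    exact hAm.inter ((measurable_const_mul _) hS)
  have hQd : Pairwise (Function.onFun Disjoint Q) := by
    intro i j hij
    rw [Function.onFun, Set.disjoint_left]
    rintro y hy1 hy2
    obtain ⟨s, ⟨hs, -⟩, hs'⟩ := hy1
    obtain ⟨t, ⟨ht, -⟩, ht'⟩ := hy2
    have hj : μ ^ j ≠ 0 := zpow_ne_zero j hμ0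
    have hst : μ ^ (i - j) * s = t := by
      have h1 : μ ^ i * s = μ ^ j * t := hs'.trans ht'.symm
      rw [zpow_sub₀ hμ0, div_mul_eq_mul_div, h1, mul_div_cancel_left₀ _ hj]
    have := hdis s hs (i - j) (by rw [hst]; exact ht)
    exact hij (by omega)
  have hQA : (⋃ j, Q j) ⊆ A := by
    apply iUnion_subset
    intro j
    rw [hQeq]
    exact inter_subset_left
  calc ∫⁻ x in S, w x ≤ ∫⁻ x in ⋃ j, P j, w x := lintegral_mono_set hcov
    _ ≤ ∑' j, ∫⁻ x in P j, w x := lintegral_iUnion_le _ _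
    _ = ∑' j, ∫⁻ x in Q j, w x := by
        congr 1
        ext j
        exact (AL4_scale (μ ^ j) (zpow_ne_zero j hμ0) (P j) (hPm j)).symm
    _ = ∫⁻ x in ⋃ j, Q j, w x := (lintegral_iUnion hQm hQd _).symm
    _ ≤ ∫⁻ x in A, w x := lintegral_mono_set hQA
    _ = ENNReal.ofReal (2 * Real.pi * Real.log ‖μ‖) := h3 ‖μ‖ hμ

end PLY
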