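import Pool.Agent.helper68.PL.SpecB
import Pool.Agent.helper43.PM.LDP
import Pool.Agent.helper3.PM.LFA

/-! # Project pl: CNB, a density point of the Julia set has no infinite sequence of good times at a fixed level -/

set_option autoImplicit false

open Complex Metric Set Filter Topology MeasureTheory
open Pool.Agent.helper98.ILF
open WP (it)
open HY (UD T S hd UN RM)
open PM

noncomputable section

namespace PL

theorem CNB_dit (f : Polynomial ℂ) (s : ℕ) : Differentiable ℂ (it f s) := by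
  have h : it f s = (fun z : ℂ => f.eval z)^[s] := rfl
  rw [h]
  exact f.differentiable.iterate s

theorem CNB_inv {f : Polynomial ℂ} {R δ e₀ d₀ : ℝ} {k₀ : ℕ} (hST : ST f R δ e₀ d₀ k₀) (s : ℕ) :
    ∀ z : ℂ, it f s z ∈ JJ f ↔ z ∈ JJ f := by
  induction s with
  | zero =>
    intro z
    simp [it]
  | succ s ih =>
    intro z
    rw [LFA_it_succ, hST.Ji]
    exact ih z

/-- the derivative of `FC` at the centre is the hyperbolic derivative. -/
theorem CNB_der (hTDF : TDF_stmt) (hVCF : VCF_stmt) (hVFC : VFC_stmt) {f : Polynomial ℂ} {R : ℝ} (hf : 2 ≤ f.natDegree) (hER : ER f R)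
    {k s : ℕ} {x : ℂ} (hx : x ∈ VK f R (k + s)) (hxs : it f s x ∈ VK f R k) :
    DifferentiableOn ℂ (FC f R k s x (it f s x)) UD ∧ MapsTo (FC f R k s x (it f s x)) UD UD ∧
    (∀ u ∈ UD, rm (VC f R k (it f s x)) (it f s x) (FC f R k s x (it f s x) u) = it f s (rm (VC f R (k + s) x) x u)) ∧
    FC f R k s x (it f s x) 0 = 0 ∧
    ‖deriv (FC f R k s x (it f s x)) 0‖ = hdf (it f s) (VC f R (k + s) x) (VC f R k (it f s x)) x := by
  obtain ⟨hDD, hxW, -, -⟩ := hVCF f R hf hER (k + s) x hx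
  obtain ⟨hDD', hxW', -, -⟩ := hVCF f R hf hER k (it f s x) hxs
  obtain ⟨hWo, -, hW⟩ := hTDF _ hDD
  obtain ⟨hWo', -, hW'⟩ := hTDF _ hDD'
  obtain ⟨hRM, hcr0, -, -, -, -, -⟩ := hW x hxW
  obtain ⟨hRM', hcr0', hcx', -, -, -, -⟩ := hW' _ hxW'
  obtain ⟨hFd, hFm, hF0, hFe, -⟩ := hVFC f R hf hER k s x hx _ hxW'
  have h0 : (0 : ℂ) ∈ UD := by simp [HY.UD]
  have hUDo : IsOpen UD := isOpen_ball
  have hF00 : FC f R k s x (it f s x) 0 = 0 := by rw [hF0, hcx']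
  refine ⟨hFd, hFm, hFe, hF00, ?_⟩
  have e1 : (fun u => rm (VC f R k (it f s x)) (it f s x) (FC f R k s x (it f s x) u)) =ᶠ[𝓝 0]
      fun u => it f s (rm (VC f R (k + s) x) x u) := by
    filter_upwards [hUDo.mem_nhds h0] with u hu using hFe u hu
  have e2 := e1.deriv_eq
  have d1 : HasDerivAt (FC f R k s x (it f s x)) (deriv (FC f R k s x (it f s x)) 0) 0 :=
    (hFd.differentiableAt (hUDo.mem_nhds h0)).hasDerivAt
  have d2 : HasDerivAt (rm (VC f R k (it f s x)) (it f s x)) (deriv (rm (VC f R k (it f s x)) (it f s x)) 0)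
      (FC f R k s x (it f s x) 0) := by
    rw [hF00]
    exact (hRM'.dif.differentiableAt (hUDo.mem_nhds h0)).hasDerivAt
  have d3 := d2.comp (0 : ℂ) d1
  have d4 : HasDerivAt (rm (VC f R (k + s) x) x) (deriv (rm (VC f R (k + s) x) x) 0) 0 :=
    (hRM.dif.differentiableAt (hUDo.mem_nhds h0)).hasDerivAt
  have d5 : HasDerivAt (it f s) (deriv (it f s) x) (rm (VC f R (k + s) x) x 0) := by
    rw [hRM.val]
    exact (CNB_dit f s x).hasDerivAt
  have d6 := d5.comp (0 : ℂ) d4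
  have e3 : deriv (rm (VC f R k (it f s x)) (it f s x)) 0 * deriv (FC f R k s x (it f s x)) 0 =
      deriv (it f s) x * deriv (rm (VC f R (k + s) x) x) 0 := by
    rw [← d6.deriv, ← d3.deriv]
    exact e2
  have e4 := congrArg norm e3
  rw [norm_mul, norm_mul] at e4
  unfold hdf
  rw [eq_div_iff hcr0'.ne']
  unfold cr
  linarith [mul_comm ‖deriv (FC f R k s x (it f s x)) 0‖ ‖deriv (rm (VC f R k (it f s x)) (it f s x)) 0‖]

/-- the volume of the complement of `J` near `y`, controlled by the volume in the coordinate (radius `ρ`). -/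
theorem CNB_vol (hTDF : TDF_stmt) (hTKO : TKO_stmt) (hVKF : VKF_stmt) (hVCF : VCF_stmt) (hVLB : VLB_stmt)
    {f : Polynomial ℂ} {R δ e₀ d₀ : ℝ} {k₀ : ℕ} (hst : ST f R δ e₀ d₀ k₀) (k : ℕ) {ρ : ℝ} (hρ : 0 < ρ) (hρ1 : ρ ≤ 9 / 10) :
    ∃ (L s : ℝ), 0 < s ∧ 0 ≤ L ∧ ∀ y ∈ JJ f, ∀ κ : ℝ,
      volume {x | x ∈ ball (0 : ℂ) ρ ∧ rm (VC f R k y) y x ∉ JJ f} ≤ ENNReal.ofReal κ →
      volume (ball y s \ JJ f) ≤ ENNReal.ofReal (L ^ 2) * ENNReal.ofReal κ := by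
  obtain ⟨c, hc0, hc⟩ := hVLB f R δ e₀ d₀ k₀ hst k
  obtain ⟨K, hK1, hK, hKρ⟩ := hTKO
  obtain ⟨C, hC1, hC⟩ := hKρ (9 / 10) (by norm_num) (by norm_num)
  have hER : ER f R := ⟨hst.R1, hst.esc⟩
  have hK0 : 0 < K := by linarith
  have hR0 : 0 ≤ R := by linarith [hst.R1]
  refine ⟨C * (K * R), (min ρ 1) / 2 * c / K, by positivity, by positivity, ?_⟩
  intro y hy κ hκ
  have hyk : y ∈ VK f R k := hst.Jv y hy k
  obtain ⟨hDD, hyW, hWV, -⟩ := hVCF f R hst.deg hER k y hyk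
  obtain ⟨hWo, -, hW⟩ := hTDF _ hDD
  obtain ⟨hRM, hcr0, -, -, -, hcx, hrm⟩ := hW y hyW
  obtain ⟨hball, -, hpd⟩ := hK _ hDD y hyW
  obtain ⟨-, hder⟩ := hC _ hDD y hyW
  obtain ⟨-, hVR, -⟩ := hVKF f R hst.deg hER
  have hcrc : c ≤ cr (VC f R k y) y := (hc y hy).2
  -- upper bound of the conformal radius
  have hcrR : cr (VC f R k y) y ≤ K * R := by
    have h1 : cr (VC f R k y) y / K ≤ R := LFA_rad hR0 (hball.trans (hWV.trans (hVR k)))
    rw [div_le_iff₀ hK0] at h1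
    linarith
  set E : Set ℂ := {x | x ∈ ball (0 : ℂ) ρ ∧ rm (VC f R k y) y x ∉ JJ f} with hE
  have hsub : ball (0 : ℂ) ρ ⊆ UD := ball_subset_ball (by linarith)
  have hEo : IsOpen E := by
    have h1 : ContinuousOn (rm (VC f R k y) y) (ball (0 : ℂ) ρ) := hRM.dif.continuousOn.mono hsub
    exact h1.isOpen_inter_preimage isOpen_ball hst.Jc.isClosed.isOpen_compl
  have hEs : E ⊆ UD := fun x hx => hsub hx.1
  have hmin : min ρ 1 = ρ := min_eq_left (by linarith)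
  have hincl : ball y ((min ρ 1) / 2 * c / K) \ JJ f ⊆ rm (VC f R k y) y '' E := by
    rintro b ⟨hb, hbJ⟩
    rw [hmin, mem_ball, dist_eq_norm] at hb
    have h1 : ‖b - y‖ < cr (VC f R k y) y / K := by
      refine hb.trans_le ?_
      gcongr
      nlinarith
    obtain ⟨hbW, hbp⟩ := hpd b h1
    obtain ⟨h2, h3, h4, -⟩ := hcx b hbW
    refine ⟨cx (VC f R k y) y b, ⟨?_, ?_⟩, h3⟩
    · rw [mem_ball_zero_iff, ← h4]
      refine hbp.trans_lt ?_
      rw [div_lt_iff₀ hcr0]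
      have h5 : K * ‖b - y‖ < ρ / 2 * c := by
        rw [lt_div_iff₀ hK0] at hb
        linarith
      have h6 : ρ / 2 * c ≤ ρ * cr (VC f R k y) y := by
        have : ρ * c ≤ ρ * cr (VC f R k y) y := by gcongr
        nlinarith
      linarith
    · rw [h3]
      exact hbJ
  calc volume (ball y ((min ρ 1) / 2 * c / K) \ JJ f) ≤ volume (rm (VC f R k y) y '' E) := measure_mono hincl
    _ ≤ ENNReal.ofReal ((C * (K * R)) ^ 2) * volume E := by
        refine volume_image_le hEo.measurableSet ?_ (hRM.inj.mono hEs) ?_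
        · intro x hx
          exact hRM.dif.differentiableAt (isOpen_ball.mem_nhds (hEs hx))
        · intro x hx
          have h1 : ‖x‖ ≤ 9 / 10 := by
            have := mem_ball_zero_iff.1 hx.1
            linarith
          refine (hder x h1).1.trans ?_
          gcongr
    _ ≤ ENNReal.ofReal ((C * (K * R)) ^ 2) * ENNReal.ofReal κ := by
        gcongr

/-- density in the coordinate of the target at good times. -/
theorem CNB_den (hTDF : TDF_stmt) (hVCF : VCF_stmt) (hVFC : VFC_stmt) (hVSM : VSM_stmt) (hKO0 : V3.KO0_stmt) (hKO3 : V3.KO3_stmt)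
    {f : Polynomial ℂ} {R δ e₀ d₀ : ℝ} {k₀ : ℕ} (hST : ST f R δ e₀ d₀ k₀) {x : ℂ} (hx : x ∈ JJ f) (hDP : DP (JJ f) x) (k : ℕ)
    {b₀ r₀ : ℝ} (hr₀ : 0 < r₀) (hr₁ : r₀ ≤ 1)
    (hP : ∀ F : ℂ → ℂ, DifferentiableOn ℂ F UD → MapsTo F UD UD → F 0 = 0 → b₀ ≤ ‖deriv F 0‖ →
      ∃ H : ℂ → ℂ, UN H ∧ H 0 = 0 ∧ ∀ x ∈ UD, F (H x) = (r₀ : ℂ) * x ∧ ‖H x‖ ≤ 1 / 8 ∧ b₀ / 2 ≤ ‖deriv F (H x)‖)
    {κ : ℝ} (hκ : 0 < κ) : ∃ s₁ : ℕ, ∀ s ≥ s₁, b₀ ≤ hdf (it f s) (VC f R (k + s) x) (VC f R k (it f s x)) x →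
      volume {u | u ∈ ball (0 : ℂ) (r₀ * (9 / 10)) ∧ rm (VC f R k (it f s x)) (it f s x) u ∉ JJ f} ≤ ENNReal.ofReal κ := by
  have hER : ER f R := ⟨hST.R1, hST.esc⟩
  obtain ⟨C, hC1, hko⟩ := hKO3 (1 / 10) (by norm_num) (by norm_num)
  have hC0 : 0 < C := by linarith
  obtain ⟨δ', hδ', hden⟩ := hDP (κ / C ^ 4) (by positivity)
  obtain ⟨k₁, hk₁⟩ := hVSM f R δ e₀ d₀ k₀ hST (δ' / (4 * C)) (by positivity)
  refine ⟨k₁, fun s hs hgood => ?_⟩
  have hxk : x ∈ VK f R (k + s) := hST.Jv x hx _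
  have hxs : it f s x ∈ JJ f := LFA_it_mem hST hx s
  obtain ⟨hFd, hFm, hFe, hF0, hFder⟩ := CNB_der hTDF hVCF hVFC hST.deg hER hxk (hST.Jv _ hxs k)
  obtain ⟨H, hHU, hH0, hH⟩ := hP _ hFd hFm hF0 (by rw [hFder]; exact hgood)
  obtain ⟨hDD, hxW, -, -⟩ := hVCF f R hST.deg hER (k + s) x hxk
  obtain ⟨hWo, -, hW⟩ := hTDF _ hDD
  obtain ⟨hRM, hcr0, -, -, -, -, -⟩ := hW x hxW
  have hUDo : IsOpen UD := isOpen_ball
  have h0UD : (0 : ℂ) ∈ UD := by simp [HY.UD]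
  -- the branch
  obtain ⟨g, hg⟩ : ∃ g : ℂ → ℂ, g = fun y => rm (VC f R (k + s) x) x (H y) := ⟨_, rfl⟩
  have hgd : DifferentiableOn ℂ g UD := by
    rw [hg]
    exact hRM.dif.comp hHU.dif hHU.map
  have hgi : InjOn g UD := by
    rw [hg]
    exact hRM.inj.comp hHU.inj hHU.map
  have hg0 : g 0 = x := by
    rw [hg]
    simp only [hH0]
    exact hRM.val
  have hgy : ∀ y ∈ UD, it f s (g y) = rm (VC f R k (it f s x)) (it f s x) ((r₀ : ℂ) * y) := by
    intro y hy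
    rw [hg]
    simp only
    rw [← hFe _ (hHU.map hy), (hH y hy).1]
  have hcrs := hk₁ (k + s) (by omega) x hx
  have hgder : ‖deriv g 0‖ ≤ cr (VC f R (k + s) x) x := by
    have d1 : HasDerivAt H (deriv H 0) 0 := (hHU.dif.differentiableAt (hUDo.mem_nhds h0UD)).hasDerivAt
    have d2 : HasDerivAt (rm (VC f R (k + s) x) x) (deriv (rm (VC f R (k + s) x) x) 0) (H 0) := by
      rw [hH0]
      exact (hRM.dif.differentiableAt (hUDo.mem_nhds h0UD)).hasDerivAt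
    have d3 := (d2.comp (0 : ℂ) d1).deriv
    have d4 : deriv g 0 = deriv (rm (VC f R (k + s) x) x) 0 * deriv H 0 := by
      rw [hg, ← d3]
      rfl
    have d5 : ‖deriv H 0‖ ≤ 1 := by
      have h1 : MapsTo H (ball (0 : ℂ) 1) (closedBall (H 0) 1) := by
        rw [hH0]
        exact fun y hy => ball_subset_closedBall (hHU.map hy)
      have h2 := Complex.norm_deriv_le_div_of_mapsTo_ball hHU.dif h1 one_pos
      simpa using h2
    rw [d4, norm_mul]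
    calc ‖deriv (rm (VC f R (k + s) x) x) 0‖ * ‖deriv H 0‖ ≤ ‖deriv (rm (VC f R (k + s) x) x) 0‖ * 1 := by gcongr
      _ = cr (VC f R (k + s) x) x := by rw [mul_one]; rfl
  have hgne : ∀ y ∈ UD, deriv g y ≠ 0 := hKO0 g UD hUDo hgd hgi
  have hg'0 : 0 < ‖deriv g 0‖ := norm_pos_iff.2 (hgne 0 h0UD)
  obtain ⟨-, hdist⟩ := hko g 0 1 one_pos hgd hgi
  have hball : ball (0 : ℂ) (9 / 10) ⊆ UD := ball_subset_ball (by norm_num)
  have hdist' : ∀ y ∈ ball (0 : ℂ) (9 / 10), ‖deriv g 0‖ ≤ C * ‖deriv g y‖ ∧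
      ‖g y - x‖ < C * ‖deriv g 0‖ := by
    intro y hy
    have hy' : y ∈ ball (0 : ℂ) ((1 - 1 / 10) * 1) := by
      have e : (1 - 1 / 10 : ℝ) * 1 = 9 / 10 := by norm_num
      rw [e]
      exact hy
    obtain ⟨-, h2, h3, -⟩ := hdist y hy'
    refine ⟨h2, ?_⟩
    rw [hg0] at h3
    have hyn : ‖y‖ < 1 := by
      have := mem_ball_zero_iff.1 hy
      linarith
    have h4 : C * ‖y - 0‖ * ‖deriv g 0‖ < C * 1 * ‖deriv g 0‖ := by
      apply mul_lt_mul_of_pos_right _ hg'0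
      apply mul_lt_mul_of_pos_left _ hC0
      rw [sub_zero]
      exact hyn
    linarith
  have hAm : MeasurableSet (JJ f) := hST.Jc.isClosed.measurableSet
  have hS'm : MeasurableSet {y | y ∈ ball (0 : ℂ) (9 / 10) ∧ g y ∉ JJ f} :=
    LDP_meas g (JJ f) _ hAm isOpen_ball (hgd.continuousOn.mono hball)
  have himg : g '' {y | y ∈ ball (0 : ℂ) (9 / 10) ∧ g y ∉ JJ f} ⊆ ball x (C * ‖deriv g 0‖) \ JJ f := by
    rintro _ ⟨y, ⟨hy, hyA⟩, rfl⟩
    refine ⟨?_, hyA⟩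
    rw [mem_ball, dist_eq_norm]
    exact (hdist' y hy).2
  have hs1 : C * ‖deriv g 0‖ < δ' := by
    have h1 : C * ‖deriv g 0‖ ≤ C * (δ' / (4 * C)) := by
      apply mul_le_mul_of_nonneg_left _ hC0.le
      linarith
    have h2 : C * (δ' / (4 * C)) = δ' / 4 := by
      field_simp
    linarith
  have hvol1 := hden (C * ‖deriv g 0‖) (by positivity) hs1
  have hge := volume_image_ge (G := g) (T := {y | y ∈ ball (0 : ℂ) (9 / 10) ∧ g y ∉ JJ f})
    (β := ‖deriv g 0‖ / C) hS'm (by positivity)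
    (fun y hy => hgd.differentiableAt (hUDo.mem_nhds (hball hy.1)))
    (hgi.mono fun y hy => hball hy.1)
    (fun y hy => by
      rw [div_le_iff₀ hC0, mul_comm]
      exact (hdist' y hy.1).1)
  have hvolS' : volume {y | y ∈ ball (0 : ℂ) (9 / 10) ∧ g y ∉ JJ f} ≤ ENNReal.ofReal κ := by
    have h1 : ENNReal.ofReal ((‖deriv g 0‖ / C) ^ 2) *
        volume {y | y ∈ ball (0 : ℂ) (9 / 10) ∧ g y ∉ JJ f} ≤
        ENNReal.ofReal (κ / C ^ 4 * (C * ‖deriv g 0‖) ^ 2) :=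
      hge.trans ((measure_mono himg).trans hvol1)
    have h2 : κ / C ^ 4 * (C * ‖deriv g 0‖) ^ 2 = (‖deriv g 0‖ / C) ^ 2 * κ := by
      field_simp
    rw [h2, ENNReal.ofReal_mul (by positivity)] at h1
    have h3 : ENNReal.ofReal ((‖deriv g 0‖ / C) ^ 2) ≠ 0 := by
      rw [Ne, ENNReal.ofReal_eq_zero, not_le]
      positivity
    exact (ENNReal.mul_le_mul_iff_right h3 ENNReal.ofReal_ne_top).1 h1
  -- invariance
  have hinv : ∀ z : ℂ, it f s z ∈ JJ f ↔ z ∈ JJ f := CNB_inv hST s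
  have hset : {u | u ∈ ball (0 : ℂ) (r₀ * (9 / 10)) ∧ rm (VC f R k (it f s x)) (it f s x) u ∉ JJ f} ⊆
      (fun u : ℂ => (r₀⁻¹ : ℝ) • u) ⁻¹' {y | y ∈ ball (0 : ℂ) (9 / 10) ∧ g y ∉ JJ f} := by
    rintro u ⟨hu, huA⟩
    have hu' : (r₀⁻¹ : ℝ) • u ∈ ball (0 : ℂ) (9 / 10) := by
      rw [mem_ball_zero_iff] at hu ⊢
      rw [norm_smul, Real.norm_eq_abs, abs_of_pos (by positivity), inv_mul_lt_iff₀ hr₀]
      exact hu
    refine ⟨hu', ?_⟩
    rw [← hinv, hgy _ (hball hu')]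
    have : (r₀ : ℂ) * ((r₀⁻¹ : ℝ) • u) = u := by
      rw [real_smul]
      push_cast
      have : (r₀ : ℂ) ≠ 0 := by exact_mod_cast hr₀.ne'
      field_simp
    rw [this]
    exact huA
  calc volume {u | u ∈ ball (0 : ℂ) (r₀ * (9 / 10)) ∧ rm (VC f R k (it f s x)) (it f s x) u ∉ JJ f}
      ≤ volume ((fun u : ℂ => (r₀⁻¹ : ℝ) • u) ⁻¹'
          {y | y ∈ ball (0 : ℂ) (9 / 10) ∧ g y ∉ JJ f}) := measure_mono hset
    _ = ENNReal.ofReal |((r₀⁻¹ : ℝ) ^ (Module.finrank ℝ ℂ))⁻¹| *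
          volume {y | y ∈ ball (0 : ℂ) (9 / 10) ∧ g y ∉ JJ f} :=
        Measure.addHaar_preimage_smul volume (by positivity) _
    _ ≤ 1 * volume {y | y ∈ ball (0 : ℂ) (9 / 10) ∧ g y ∉ JJ f} := by
        gcongr
        rw [← ENNReal.ofReal_one]
        apply ENNReal.ofReal_le_ofReal
        rw [Complex.finrank_real_complex, inv_pow, inv_inv, abs_of_pos (by positivity)]
        exact pow_le_one₀ hr₀.le hr₁
    _ ≤ ENNReal.ofReal κ := by
        rw [one_mul]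
        exact hvolS'

/-- CNB. -/
theorem CNB (hPBG : PBG_stmt) (hTDF : TDF_stmt) (hTKO : TKO_stmt) (hVKF : VKF_stmt) (hVCF : VCF_stmt) (hVFC : VFC_stmt)
    (hVSM : VSM_stmt) (hVLB : VLB_stmt) (hKO0 : V3.KO0_stmt) (hKO3 : V3.KO3_stmt) : CNB_stmt := by
  intro f R δ e₀ d₀ k₀ hst x hx hDP b₀ hb₀ k hinf
  obtain ⟨r₀, hr₀, hr₁, hP⟩ := hPBG (min b₀ 1) (by positivity) (min_le_right _ _)
  obtain ⟨L, s, hs, hL, hvol⟩ := CNB_vol hTDF hTKO hVKF hVCF hVLB hst k (ρ := r₀ * (9 / 10)) (by positivity) (by linarith)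
  -- the good times
  choose φ hφ1 hφ2 using hinf
  have hxJ : ∀ i, it f (φ i) x ∈ JJ f := fun i => LFA_it_mem hst hx _
  obtain ⟨y, hy, ψ, hψ, hlim⟩ := hst.Jc.tendsto_subseq hxJ
  have hzero : volume (ball y (s / 2) \ JJ f) = 0 := by
    refine le_antisymm ?_ bot_le
    refine ENNReal.le_of_forall_pos_le_add ?_
    intro ε hε _
    have hκ : (0 : ℝ) < ε / (L ^ 2 + 1) := by
      have : (0 : ℝ) < ε := hε
      positivity
    obtain ⟨s₁, hs₁⟩ := CNB_den hTDF hVCF hVFC hVSM hKO0 hKO3 hst hx hDP k hr₀ hr₁ hP hκ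
    have h1 : ∀ᶠ n in atTop, dist (it f (φ (ψ n)) x) y < s / 2 := by
      exact (Metric.tendsto_nhds.1 hlim) (s / 2) (by positivity)
    obtain ⟨n, hn1, hn2⟩ := (h1.and (eventually_ge_atTop s₁)).exists
    have hψn : s₁ ≤ φ (ψ n) := by
      have h2 : n ≤ ψ n := hψ.id_le n
      have h3 := hφ1 (ψ n)
      omega
    have h2 := hs₁ (φ (ψ n)) hψn ((min_le_left _ _).trans (hφ2 (ψ n)))
    have h3 := hvol (it f (φ (ψ n)) x) (hxJ _) _ h2
    have h4 : ball y (s / 2) \ JJ f ⊆ ball (it f (φ (ψ n)) x) s \ JJ f := by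
      refine sdiff_subset_sdiff_left ?_
      apply ball_subset_ball'
      rw [dist_comm]
      linarith
    rw [zero_add]
    calc volume (ball y (s / 2) \ JJ f) ≤ volume (ball (it f (φ (ψ n)) x) s \ JJ f) := measure_mono h4
      _ ≤ ENNReal.ofReal (L ^ 2) * ENNReal.ofReal (ε / (L ^ 2 + 1)) := h3
      _ = ENNReal.ofReal (L ^ 2 * (ε / (L ^ 2 + 1))) := by rw [ENNReal.ofReal_mul (by positivity)]
      _ ≤ ENNReal.ofReal ε := by
          apply ENNReal.ofReal_le_ofReal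
          have hε' : (0 : ℝ) ≤ ε := ε.2
          rw [mul_div_assoc', div_le_iff₀ (by positivity)]
          nlinarith
      _ = ε := ENNReal.ofReal_coe_nnreal
  have hopen : IsOpen (ball y (s / 2) \ JJ f) := isOpen_ball.sdiff hst.Jc.isClosed
  have hempty : ball y (s / 2) \ JJ f = ∅ := (hopen.measure_eq_zero_iff volume).1 hzero
  have hsub : ball y (s / 2) ⊆ KK f R := by
    intro z hz
    have hzJ : z ∈ JJ f := by
      by_contra hzn
      have : z ∈ ball y (s / 2) \ JJ f := ⟨hz, hzn⟩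
      rw [hempty] at this
      exact this
    exact fun j => hst.Jv z hzJ j
  have hyi : y ∈ interior (KK f R) :=
    mem_interior.2 ⟨ball y (s / 2), hsub, isOpen_ball, mem_ball_self (by positivity)⟩
  exact (Set.disjoint_left.1 hst.Jn) hy hyi

end PL
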