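import Pool.Agent.helper68.PL.SpecF

/-! # Project pl: fSTD, one step down for a dihedral group -/

set_option autoImplicit false

open Complex Metric Set Filter Topology MeasureTheory
open Pool.Agent.helper98.ILF
open WP (it)
open HY (UD T S hd UN RM)
open PM

noncomputable section

namespace PL

theorem fSTD_tr (b z : ℂ) : tr b z = z + b := rfl

theorem fSTD_ht (p z : ℂ) : ht p z = 2 * p - z := rfl

theorem fSTD_pow (b : ℂ) (M : ℕ) : tr b ^ M = tr (M * b) := by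
  induction M with
  | zero =>
    ext z
    rw [pow_zero, fSTD_tr]
    simp
  | succ M ih =>
    rw [pow_succ, ih]
    ext z
    rw [Equiv.Perm.mul_apply, fSTD_tr, fSTD_tr, fSTD_tr]
    push_cast
    ring

theorem fSTD_sym {Ω : Set ℂ} {G : ℂ → ℂ} {p : ℂ} (h : ht p ∈ DK Ω G) : ∀ ζ, 2 * p - ζ ∈ Ω ↔ ζ ∈ Ω := by
  intro ζ
  exact h.2.1 ζ

theorem fSTD (hFRS : FRS_stmt) (hTLX : TLX_stmt) (hNZ : NZ_stmt) (hFST : eFST_stmt) (hIDX : eIDX_stmt) (hCLA : CLA_stmt)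
    (hCMP : eCMP_stmt) (hHTM : HTM_stmt) (hCRI : CRI_stmt) (hCRT : eCRT_stmt) : fSTD_stmt := by
  intro f R δ e₀ d₀ k₀ hST μ x hTP U a n t hU ha hVD χ hFR G hTL p b hDI
  have hxJ := hTP.mem
  obtain ⟨hb0, hDI'⟩ := hDI
  have hg : tr b ∈ DK (χ '' UD) G := (hDI' _).2 ⟨1, Or.inl (by simp)⟩
  have hg1 : tr b ≠ 1 := by
    intro h
    have := congrArg (fun σ : Equiv.Perm ℂ => σ 0) h
    simp only [fSTD_tr, Equiv.Perm.coe_one, id_eq, zero_add] at this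
    exact hb0 this
  have hgf : ∀ z ∈ χ '' UD, tr b z ≠ z := by
    intro z _ h
    rw [fSTD_tr] at h
    apply hb0
    simpa using h
  obtain ⟨w', hw', hF⟩ := hFST f R δ e₀ d₀ k₀ hST μ x hTP U a n t hU ha hVD χ hFR t G (Eventually.of_forall fun j => le_rfl) hTL
    (tr b) hg hg1 hgf
  have hw1 : ∀ᶠ j in (U : Filter ℕ), w' j ≤ n j + t j := hw'.mono fun j hj => by omega
  have hw2 : ∀ᶠ j in (U : Filter ℕ), w' j + 1 ≤ n j + t j := hw'.mono fun j hj => by omega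
  obtain ⟨G₁, hG₁⟩ := hTLX f R δ e₀ d₀ k₀ hST x hxJ U _ χ hFR w' hw1
  obtain ⟨G₂, hG₂⟩ := hTLX f R δ e₀ d₀ k₀ hST x hxJ U _ χ hFR (fun j => w' j + 1) hw2
  obtain ⟨hg2, hng1⟩ := hF G₁ G₂ hG₁ hG₂
  obtain ⟨hPG₁, hCY₁⟩ := hNZ f R δ e₀ d₀ k₀ hST μ x hTP U a n t hU ha hVD χ hFR w' G₁ (hw'.mono fun j hj => by omega) hG₁
  obtain ⟨hPG₂, -⟩ := hNZ f R δ e₀ d₀ k₀ hST μ x hTP U a n t hU ha hVD χ hFR (fun j => w' j + 1) G₂ (hw'.mono fun j hj => by omega) hG₂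
  obtain ⟨M, hM1, -, hgM⟩ := hIDX f R δ e₀ d₀ k₀ hST x hxJ U _ χ hFR w' G₁ G₂ hG₁ hG₂ hPG₁ hPG₂ (tr b) hg2
  rw [fSTD_pow] at hgM
  have hMb : (M : ℂ) * b ≠ 0 := by
    refine mul_ne_zero ?_ hb0
    exact_mod_cast (by omega : M ≠ 0)
  -- the classification for `G₁`
  have hD : ∃ p₁ ∈ χ '' UD, ∃ b₁ : ℂ, DI (DK (χ '' UD) G₁) p₁ b₁ := by
    rcases hCLA _ G₁ hPG₁ with ⟨h, -⟩ | ⟨p₁, hp₁, h, -⟩ | ⟨p₁, hp₁, b₁, h, -⟩ | ⟨g, h, -⟩
    · exfalso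
      rw [h, Subgroup.mem_bot] at hgM
      have := congrArg (fun σ : Equiv.Perm ℂ => σ 0) hgM
      simp only [fSTD_tr, Equiv.Perm.coe_one, id_eq, zero_add] at this
      exact hMb this
    · exfalso
      rcases (h _).1 hgM with h1 | h1
      · have := congrArg (fun σ : Equiv.Perm ℂ => σ 0) h1
        simp only [fSTD_tr, Equiv.Perm.coe_one, id_eq, zero_add] at this
        exact hMb this
      · have h2 := congrArg (fun σ : Equiv.Perm ℂ => σ 0) h1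
        have h3 := congrArg (fun σ : Equiv.Perm ℂ => σ 1) h1
        simp only [fSTD_tr, fSTD_ht, zero_add, sub_zero] at h2 h3
        rw [h2] at h3
        have h4 : (2 : ℂ) = 0 := by linear_combination h3
        norm_num at h4
    · exact ⟨p₁, hp₁, b₁, h⟩
    · exact absurd h (hCY₁ g)
  obtain ⟨p₁, hp₁, b₁, -, hDI₁⟩ := hD
  have hht₁ : ht p₁ ∈ DK (χ '' UD) G₁ := (hDI₁ _).2 ⟨0, Or.inr (by simp)⟩
  obtain ⟨B, hBd, hBm, hB0, hBcv, hBG, hDK⟩ := hCMP f R δ e₀ d₀ k₀ hST x hxJ U _ χ hFR w' (fun j => w' j + 1) G₁ G₂ hG₁ hG₂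
    (Eventually.of_forall fun j => Nat.le_succ _)
  have hht₂ : ht p₁ ∈ DK (χ '' UD) G₂ := hDK hht₁
  obtain ⟨q, hq⟩ : ∃ q, q = p₁ + b / 2 := ⟨_, rfl⟩
  have hqe : ht q = tr b * ht p₁ := by
    ext z
    rw [Equiv.Perm.mul_apply, fSTD_tr, fSTD_ht, fSTD_ht, hq]
    ring
  have hqe2 : tr b = ht q * ht p₁ := by
    ext z
    rw [Equiv.Perm.mul_apply, fSTD_tr, fSTD_ht, fSTD_ht, hq]
    ring
  have hhtq : ht q ∈ DK (χ '' UD) G₂ := by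
    rw [hqe]
    exact mul_mem hg2 hht₂
  have hqΩ : q ∈ χ '' UD := hHTM _ G₂ hPG₂ q hhtq
  have hd1 : deriv G₁ p₁ = 0 := (hCRI _ G₁ hPG₁ p₁ hp₁).2 hht₁
  have hd2 : deriv G₂ q = 0 := (hCRI _ G₂ hPG₂ q hqΩ).2 hhtq
  have hd3 : deriv G₁ q ≠ 0 := by
    intro h
    have h1 := (hCRI _ G₁ hPG₁ q hqΩ).1 h
    apply hng1
    rw [hqe2]
    exact mul_mem h1 hht₁
  have hΩo : IsOpen (χ '' UD) := (hFRS f R δ e₀ d₀ k₀ hST x hxJ U _ χ hFR).2.2.2.1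
  -- the derivative of `B`
  have hBq : deriv B (G₁ q) = 0 := by
    have h1 : HasDerivAt G₁ (deriv G₁ q) q := (hPG₁.dif.differentiableAt (hΩo.mem_nhds hqΩ)).hasDerivAt
    have h2 : HasDerivAt B (deriv B (G₁ q)) (G₁ q) :=
      (hBd.differentiableAt (isOpen_ball.mem_nhds (hPG₁.map hqΩ))).hasDerivAt
    have h3 := (h2.comp q h1).deriv
    have h4 : G₂ =ᶠ[𝓝 q] (B ∘ G₁) := by
      filter_upwards [hΩo.mem_nhds hqΩ] with ζ hζ using hBG ζ hζ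
    rw [← h4.deriv_eq, hd2] at h3
    rcases mul_eq_zero.1 h3.symm with h5 | h5
    · exact h5
    · exact absurd h5 hd3
  have hBne : ∃ y ∈ UD, B y ≠ 0 := by
    by_contra hcon
    push Not at hcon
    obtain ⟨z, hz, hz2⟩ := hPG₂.nc
    apply hz2
    have h4 : G₂ =ᶠ[𝓝 z] fun _ => (0 : ℂ) := by
      filter_upwards [hΩo.mem_nhds hz] with ζ hζ
      rw [hBG ζ hζ]
      exact hcon _ (hPG₁.map hζ)
    rw [h4.deriv_eq]
    simp
  have hlim : Tendsto (fun j => (n j + t j) - w' j) U atTop := by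
    have h1 : Tendsto (fun j : ℕ => j) (U : Filter ℕ) atTop := hU
    refine tendsto_atTop_mono' _ ?_ h1
    filter_upwards [hVD.le, hw'] with j hj hj2
    omega
  obtain ⟨c, hc1, hc2, hc3, hc4⟩ := hCRT f R δ e₀ d₀ k₀ hST x hxJ U (fun j => n j + t j) w' B (G₁ q) hU hw2 hlim hBcv hBne hB0
    (hPG₁.map hqΩ) hBq
  refine ⟨w', G₁, p₁, c, M, hw', hG₁, hPG₁, hM1, hgM, hp₁, ?_, hd1, ?_, fSTD_sym hht₁, ?_, hc1, hc2, hc3, ?_⟩
  · rw [← hq]; exact hqΩ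
  · rw [← hq]; exact hd3
  · rw [← hq]; exact fSTD_sym hhtq
  · rw [← hq]; exact hc4

end PL
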